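import Pool.Agent.Lib.P4a9818.Final

/-!
Problem MP_4a9818_ag, Q1, full answer: `J^(5) ⊆ J³` for the ideal `J` of the singular locus of the
reflection arrangement of every finite complex reflection group, of any rank.

The proof does not use the classification.

* For an arrangement of mirrors with reflections `g_i = 1 + (z_i - 1) a_i ⊗ l_i` whose projections
  `P_i = a_i ⊗ l_i` satisfy `∑ P_i = λ` (the irreducible case), the connection
  `∇ = d - 2 ∑ P_i^* dℓ_i / ℓ_i` on one-forms preserves the lattice of the forms with a suitable
  pole order (`P4a9818.StabA`, `StabB`) and has a basis of flat sections (`Grad`, `FlatBasis`).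
  The flat sections are the forms `Q dF - F dQ`, `F ∈ J` of degree `D`, the common number `D` of
  codimension two flats in a mirror; so `J` contains exactly `n` independent forms of degree `D`
  (`JD`).
* Their syzygies are free (`DpG`, `DpDeg`, `HB`: Chevalley's argument for a module of covariants),
  and they generate `J` (`JGen`).
* The Koszul homology of the symmetric algebra in degrees at most three (`TF`, `KVClaim`,
  `HClaim`) controls the socle of `R / J³`, and elements of `J^(5)` of degree at most `4 D` are
  divisible by `Q²` (`Num`).
* Induction over the localisations and over products (`Loc`, `Prod`, `DecC`, `Induct`).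
-/

set_option autoImplicit false

noncomputable section

namespace Pool.Agent.Results.MP_4a9818_ag.FullAnswer

open Matrix Pool.Agent.Lib.P4a9818

/-- **Result.**  Let `G` be a finite subgroup of `GL_n(ℂ)` (for instance a finite complex
reflection group), `mirrors G` the set of the hyperplanes fixed pointwise by a reflection in `G`,
and let `ℓ H` be (the coefficient vector of) a linear form with kernel `H` for every `H` in
`mirrors G`.  Then `J^(5) ⊆ J³`, where `J^(m) = symbPow G ℓ m` is the intersection of the ideals
`(ℓ H, ℓ H')^m`, `H ≠ H'` in `mirrors G`, and `J = J^(1)`. -/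
theorem result (n : ℕ) (G : Subgroup (GL (Fin n) ℂ)) [Finite G]
    (ℓ : Submodule ℂ (Fin n → ℂ) → (Fin n → ℂ))
    (hℓ : ∀ H ∈ mirrors G, ∀ v, v ∈ H ↔ ℓ H ⬝ᵥ v = 0) :
    symbPow G ℓ 5 ≤ (symbPow G ℓ 1) ^ 3 :=
  final G ℓ hℓ

end Pool.Agent.Results.MP_4a9818_ag.FullAnswer
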